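import Pool.Agent.W495.TA.Stms

/-!
# Cohomology classes on abelian varieties over finite fields generated by divisor classes and
reductions of Hodge classes on abelian varieties of bounded dimension
-/

set_option autoImplicit false

namespace Pool.Agent.R937.HB

open NumberField Pool.Agent.H204R3.CM Pool.Agent.W547.KB Pool.Agent.W547.LD Pool.Agent.W495.TA
open scoped TensorProduct

noncomputable section

variable {p : ℕ} [Fact p.Prime] {ν : PadicAlgCl p ≃+* ℂ}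

/-- The smallest system of cohomology classes, with coefficients in `Ω`, of abelian varieties over
finite fields (alternating forms `f` on the Tate module in variables indexed by the finite set `κ`)
which contains the classes of degree zero, the Tate classes of degree two over finite extensions, and
the reductions of the Hodge classes on abelian varieties of CM type **of dimension at most `B`**, and
which is stable under linear combinations, cup products, pull-backs along homomorphisms, and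
push-forwards along projections. -/
inductive AlgH (Ω : Type) [Field Ω] [CharZero Ω] (B : ℕ) :
    (Y : RedAV p ν) → (κ : Type) → ((TM Ω Y) [⋀^κ]→ₗ[Ω] Ω) → Prop
  /-- classes of degree zero -/
  | unit {Y : RedAV p ν} {κ : Type} [IsEmpty κ] (f : (TM Ω Y) [⋀^κ]→ₗ[Ω] Ω) : AlgH Ω B Y κ f
  /-- Tate classes of degree two over finite extensions (classes of divisors, by the theorem of
  Tate) -/
  | divisor {Y : RedAV p ν} {κ : Type} (hκ : Nat.card κ = 2) (f : (TM Ω Y) [⋀^κ]→ₗ[Ω] Ω) (s : ℕ)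
      (hs : 0 < s) (hf : IsTateClass Ω Y s 1 f) : AlgH Ω B Y κ f
  /-- reductions of Hodge classes on abelian varieties of CM type of dimension at most `B` -/
  | hodge {Y : RedAV p ν} {m : ℕ} (hdim : Module.finrank ℚ Y.X.H1 ≤ 2 * B)
      (f : Y.X.H1 [⋀^Fin m]→ₗ[ℚ] ℚ) (hf : IsHodge Y.X.per f) (g : (TM Ω Y) [⋀^Fin m]→ₗ[Ω] Ω)
      (hg : ∀ v : Fin m → Y.X.H1, g (fun k => 1 ⊗ₜ[ℚ] v k) = ((f v : ℚ) : Ω)) :
      AlgH Ω B Y (Fin m) g
  | zero (Y : RedAV p ν) (κ : Type) : AlgH Ω B Y κ 0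
  | add {Y : RedAV p ν} {κ : Type} (f g : (TM Ω Y) [⋀^κ]→ₗ[Ω] Ω) (hf : AlgH Ω B Y κ f)
      (hg : AlgH Ω B Y κ g) : AlgH Ω B Y κ (f + g)
  | smul {Y : RedAV p ν} {κ : Type} (c : Ω) (f : (TM Ω Y) [⋀^κ]→ₗ[Ω] Ω) (hf : AlgH Ω B Y κ f) :
      AlgH Ω B Y κ (c • f)
  /-- renaming of the variables -/
  | reindex {Y : RedAV p ν} {κ κ' : Type} (e : κ ≃ κ') (f : (TM Ω Y) [⋀^κ]→ₗ[Ω] Ω)
      (hf : AlgH Ω B Y κ f) : AlgH Ω B Y κ' (f.domDomCongr e)
  /-- cup products (up to a factor) -/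
  | cup {Y : RedAV p ν} {κ κ' : Type} [Fintype κ] [DecidableEq κ] [Fintype κ'] [DecidableEq κ']
      (f : (TM Ω Y) [⋀^κ]→ₗ[Ω] Ω) (g : (TM Ω Y) [⋀^κ']→ₗ[Ω] Ω) (hf : AlgH Ω B Y κ f)
      (hg : AlgH Ω B Y κ' g) (h : (TM Ω Y) [⋀^κ ⊕ κ']→ₗ[Ω] Ω)
      (hh : ∀ v : κ ⊕ κ' → TM Ω Y, h v = ∑ σ : Equiv.Perm (κ ⊕ κ'),
        ((Equiv.Perm.sign σ : ℤ) : Ω) *
          (f (fun k => v (σ (Sum.inl k))) * g (fun k => v (σ (Sum.inr k))))) :
      AlgH Ω B Y (κ ⊕ κ') h
  /-- pull-back along a homomorphism -/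
  | pull {Y Z : RedAV p ν} {κ : Type} (h : TM Ω Y →ₗ[Ω] TM Ω Z) (hh : IsFrobHom Ω Y Z h)
      (f : (TM Ω Z) [⋀^κ]→ₗ[Ω] Ω) (hf : AlgH Ω B Z κ f) : AlgH Ω B Y κ (f.compLinearMap h)
  /-- push-forward (integration over the fibres) along a projection `Z → Y`, where `Z` is isogenous
  to `Y × Y'` by the inclusions `h` and `h'`: insert a basis of the Tate module of `Y'` -/
  | push {Y Y' Z : RedAV p ν} {κ κ' : Type} (h : TM Ω Y →ₗ[Ω] TM Ω Z) (h' : TM Ω Y' →ₗ[Ω] TM Ω Z)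
      (hh : IsFrobHom Ω Y Z h) (hh' : IsFrobHom Ω Y' Z h')
      (hb : Function.Bijective (fun v : TM Ω Y × TM Ω Y' => h v.1 + h' v.2))
      (b : Module.Basis κ' Ω (TM Ω Y')) (f : (TM Ω Z) [⋀^κ ⊕ κ']→ₗ[Ω] Ω)
      (hf : AlgH Ω B Z (κ ⊕ κ') f) (g : (TM Ω Y) [⋀^κ]→ₗ[Ω] Ω)
      (hg : ∀ v : κ → TM Ω Y, g v = f (Sum.elim (fun k => h (v k)) (fun k => h' (b k)))) :
      AlgH Ω B Y κ g

/-- All monomials with the given functions on the Galois group, on all abelian varieties over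
finite fields, belong to the system `AlgH`. -/
def AlgMH (B : ℕ) (p : ℕ) [Fact p.Prime] (ν : PadicAlgCl p ≃+* ℂ) {Ω : Type} [Field Ω]
    [CharZero Ω] {L : Type} [Field L] [NumberField L] (j : L →+* ℂ) (jO : L →+* Ω) (κ : Type)
    (t : κ → (L ≃ₐ[ℚ] L) → ℤ) : Prop :=
  ∀ [Fintype κ] [DecidableEq κ] (Y : RedAV p ν), Big Y.X j → ∀ I : κ → Wt Y.X L,
    (∀ k, tf p ν j (St j (I k)) = t k) → AlgH Ω B Y κ (monoO jO I)

end

end Pool.Agent.R937.HB
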