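import Pool.Agent.R937.BR.Sign

/-!
# Sign functions with given mean values and sum zero
-/

set_option autoImplicit false
set_option linter.unusedSectionVars false
set_option linter.unusedVariables false

namespace Pool.Agent.R937.HB

open Pool.Agent.R937.CS Pool.Agent.R937.BR

noncomputable section

/-- The identity of Hermite. -/
theorem hermite (h : ℕ) (hh : 0 < h) (M : ℕ) : ∑ i ∈ Finset.range h, (M + i) / h = M := by
  induction M with
  | zero =>
    refine Finset.sum_eq_zero fun i hi => ?_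
    rw [zero_add]
    exact Nat.div_eq_of_lt (Finset.mem_range.1 hi)
  | succ M ih =>
    have h1 := Finset.sum_range_succ (fun i => (M + i) / h) h
    have h2 := Finset.sum_range_succ' (fun i => (M + i) / h) h
    rw [h1, ih] at h2
    have h3 : (M + h) / h = M / h + 1 := Nat.add_div_right M hh
    have h4 : ∑ i ∈ Finset.range h, (M + 1 + i) / h = ∑ i ∈ Finset.range h, (M + (i + 1)) / h :=
      Finset.sum_congr rfl fun i _ => by rw [add_assoc, add_comm 1 i]
    rw [h4]
    rw [h3, add_zero] at h2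
    omega

/-- A family of subsets of given cardinalities, such that each point belongs to the same number of
them. -/
theorem round_robin {X : Type} [DecidableEq X] (O : Finset X) (hO : 0 < O.card) (k r : ℕ)
    (m : ℕ → ℕ) (hm : ∀ q, m q ≤ O.card) (hsum : ∑ q ∈ Finset.range k, m q = O.card * r) :
    ∃ A : ℕ → Finset X, (∀ q, A q ⊆ O ∧ (A q).card = m q) ∧
      ∀ x ∈ O, ∑ q ∈ Finset.range k, (if x ∈ A q then 1 else 0) = r := by
  set h := O.card with hh
  let e : O ≃ Fin h := O.equivFin
  let M : ℕ → ℕ := fun t => ∑ q ∈ Finset.range t, m q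
  have hM : ∀ t, M (t + 1) = M t + m t := fun t => Finset.sum_range_succ _ _
  let N : ℕ → ℕ → ℕ := fun t i => (M t + i) / h
  have hN1 : ∀ t i, N t i ≤ N (t + 1) i := by
    intro t i
    refine Nat.div_le_div_right ?_
    rw [hM]
    omega
  have hN2 : ∀ t i, N (t + 1) i ≤ N t i + 1 := by
    intro t i
    change (M (t + 1) + i) / h ≤ (M t + i) / h + 1
    rw [← Nat.add_div_right _ hO]
    refine Nat.div_le_div_right ?_
    rw [hM]
    have := hm t
    omega
  let a : ℕ → ℕ → ℕ := fun t i => N (t + 1) i - N t i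
  have ha : ∀ t i, a t i = if N t i < N (t + 1) i then 1 else 0 := by
    intro t i
    change N (t + 1) i - N t i = _
    have h1 := hN1 t i
    have h2 := hN2 t i
    split_ifs with h3 <;> omega
  let A : ℕ → Finset X := fun q => (Finset.univ.filter fun x : O => N q (e x) < N (q + 1) (e x)).map
    (Function.Embedding.subtype _)
  have hmem : ∀ q (x : X) (hx : x ∈ O), x ∈ A q ↔ N q (e ⟨x, hx⟩) < N (q + 1) (e ⟨x, hx⟩) := by
    intro q x hx
    change x ∈ Finset.map _ _ ↔ _
    rw [Finset.mem_map]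
    constructor
    · rintro ⟨y, hy, rfl⟩
      exact (Finset.mem_filter.1 hy).2
    · intro h1
      exact ⟨⟨x, hx⟩, Finset.mem_filter.2 ⟨Finset.mem_univ _, h1⟩, rfl⟩
  refine ⟨A, fun q => ⟨?_, ?_⟩, ?_⟩
  · intro x hx
    obtain ⟨y, -, rfl⟩ := Finset.mem_map.1 hx
    exact y.2
  · have h1 : (A q).card = ∑ x : O, a q (e x) := by
      rw [Finset.card_map, Finset.card_filter]
      exact Finset.sum_congr rfl fun x _ => (ha q (e x)).symm
    have h2 : ∑ x : O, a q (e x) = ∑ i : Fin h, a q i := Equiv.sum_comp e fun i => a q i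
    have h3 : ∑ i : Fin h, a q i = ∑ i ∈ Finset.range h, a q i := Fin.sum_univ_eq_sum_range _ _
    have h4 : ∑ i ∈ Finset.range h, a q i + ∑ i ∈ Finset.range h, N q i =
        ∑ i ∈ Finset.range h, N (q + 1) i := by
      rw [← Finset.sum_add_distrib]
      refine Finset.sum_congr rfl fun i _ => ?_
      have := hN1 q i
      change N (q + 1) i - N q i + N q i = _
      omega
    have h5 : ∀ t, ∑ i ∈ Finset.range h, N t i = M t := fun t => hermite h hO (M t)
    rw [h5, h5, hM] at h4
    rw [h1, h2, h3]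
    omega
  · intro x hx
    have h1 : ∑ q ∈ Finset.range k, (if x ∈ A q then 1 else 0) =
        ∑ q ∈ Finset.range k, a q (e ⟨x, hx⟩) := by
      refine Finset.sum_congr rfl fun q _ => ?_
      rw [ha]
      by_cases h2 : N q (e ⟨x, hx⟩) < N (q + 1) (e ⟨x, hx⟩)
      · rw [if_pos h2, if_pos ((hmem q x hx).2 h2)]
      · rw [if_neg h2, if_neg fun h3 => h2 ((hmem q x hx).1 h3)]
    have h2 : ∀ t i, ∑ q ∈ Finset.range t, a q i + N 0 i = N t i := by
      intro t i
      induction t with
      | zero => rw [Finset.range_zero, Finset.sum_empty, zero_add]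
      | succ t ih =>
        rw [Finset.sum_range_succ]
        have := hN1 t i
        change _ + (N (t + 1) i - N t i) + _ = _
        omega
    have h3 := h2 k (e ⟨x, hx⟩)
    have h4 : N 0 (e ⟨x, hx⟩) = 0 := by
      change (∑ q ∈ Finset.range 0, m q + (e ⟨x, hx⟩ : ℕ)) / h = 0
      rw [Finset.range_zero, Finset.sum_empty, zero_add]
      exact Nat.div_eq_of_lt (e ⟨x, hx⟩).2
    have h5 : N k (e ⟨x, hx⟩) = r := by
      change (∑ q ∈ Finset.range k, m q + (e ⟨x, hx⟩ : ℕ)) / h = r
      rw [hsum, Nat.mul_add_div hO, Nat.div_eq_of_lt (e ⟨x, hx⟩).2, add_zero]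
    rw [h1]
    omega

section action

variable {D X : Type} [Group D] [Fintype D] [Fintype X] [MulAction D X]

/-- Families of sign functions whose mean values have the sum zero. -/
theorem exists_signs (c : X → X) (hc : ∀ x, c (c x) = x) (hne : ∀ x, c x ≠ x)
    (hcd : ∀ (d : D) x, c (d • x) = d • c x) (r : ℕ) (s : ℕ → X → ℤ)
    (hs : ∀ q x, s q x = 1 ∨ s q x = -1) (hodd : ∀ q x, s q (c x) = -s q x)
    (hsum : ∀ x, ∑ q ∈ Finset.range (2 * r), ∑ y ∈ Orb D x, s q y = 0) :
    ∃ s' : ℕ → X → ℤ, (∀ q x, s' q x = 1 ∨ s' q x = -1) ∧ (∀ q x, s' q (c x) = -s' q x) ∧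
      (∀ q x, ∑ y ∈ Orb D x, s' q y = ∑ y ∈ Orb D x, s q y) ∧
      ∀ x, ∑ q ∈ Finset.range (2 * r), s' q x = 0 := by
  classical
  let κ : Finset X → ℕ := fun O => (Fintype.equivFin (Finset X) O : ℕ)
  have hκ : Function.Injective κ := fun a b h => (Fintype.equivFin (Finset X)).injective (Fin.ext h)
  let ε : X → ℕ := fun x => (Fintype.equivFin X x : ℕ)
  have hε : Function.Injective ε := fun a b h => (Fintype.equivFin X).injective (Fin.ext h)
  have hcinj : Function.Injective c := fun a b h => by rw [← hc a, h, hc]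
  have hO : ∀ x y, y ∈ Orb D x → c y ∈ Orb D (c x) := by
    intro x y h
    obtain ⟨d, rfl⟩ := mem_Orb.1 h
    exact mem_Orb.2 ⟨d, (hcd d x).symm⟩
  have himg : ∀ x, (Orb D x).image c = Orb D (c x) := by
    intro x
    ext y
    rw [Finset.mem_image]
    constructor
    · rintro ⟨z, hz, rfl⟩
      exact hO x z hz
    · intro hy
      refine ⟨c y, ?_, hc y⟩
      have := hO (c x) y hy
      rwa [hc] at this
  have hpos : ∀ x : X, 0 < (Orb D x).card := fun x => Finset.card_pos.2 ⟨x, self_mem_Orb x⟩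
  -- the numbers of positive signs
  let m : ℕ → Finset X → ℕ := fun q O => (O.filter fun y => s q y = 1).card
  have hm : ∀ q O, ∑ y ∈ O, s q y = 2 * (m q O : ℤ) - O.card := by
    intro q O
    have h1 : ∀ y ∈ O, s q y = 2 * (if s q y = 1 then 1 else 0) - 1 := by
      intro y _
      rcases hs q y with h | h
      · rw [if_pos h, h]
        norm_num
      · rw [if_neg (by rw [h]; norm_num), h]
        norm_num
    rw [Finset.sum_congr rfl h1, Finset.sum_sub_distrib, ← Finset.mul_sum, Finset.sum_boole,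
      Finset.sum_const, nsmul_eq_mul, mul_one]
  have hmsum : ∀ x, ∑ q ∈ Finset.range (2 * r), m q (Orb D x) = (Orb D x).card * r := by
    intro x
    have h1 := hsum x
    rw [Finset.sum_congr rfl fun q _ => hm q (Orb D x), Finset.sum_sub_distrib, ← Finset.mul_sum,
      Finset.sum_const, Finset.card_range, nsmul_eq_mul] at h1
    have h2 : ((∑ q ∈ Finset.range (2 * r), m q (Orb D x) : ℕ) : ℤ) =
        (((Orb D x).card * r : ℕ) : ℤ) := by
      push_cast
      push_cast at h1
      linarith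
    exact_mod_cast h2
  have hA : ∃ A : Finset X → ℕ → Finset X, ∀ x : X, (∀ q, A (Orb D x) q ⊆ Orb D x ∧
      (A (Orb D x) q).card = m q (Orb D x)) ∧
      ∀ y ∈ Orb D x, ∑ q ∈ Finset.range (2 * r), (if y ∈ A (Orb D x) q then 1 else 0) = r := by
    choose A0 hA0 using fun x : X => round_robin (Orb D x) (hpos x) (2 * r) r (fun q => m q (Orb D x))
      (fun q => Finset.card_filter_le _ _) (hmsum x)
    refine ⟨fun O => if h : ∃ x : X, Orb D x = O then A0 h.choose else fun _ => ∅, fun x => ?_⟩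
    have h : ∃ y : X, Orb D y = Orb D x := ⟨x, rfl⟩
    beta_reduce
    rw [dif_pos h]
    have h1 := h.choose_spec
    have h2 := hA0 h.choose
    rw [h1] at h2
    exact h2
  obtain ⟨A, hA⟩ := hA
  let s' : ℕ → X → ℤ := fun q x =>
    if κ (Orb D x) < κ (Orb D (c x)) then (if x ∈ A (Orb D x) q then 1 else -1)
    else if κ (Orb D (c x)) < κ (Orb D x) then (if c x ∈ A (Orb D (c x)) q then -1 else 1)
    else (-1) ^ q * (if ε x < ε (c x) then 1 else -1)
  have hs1 : ∀ q x, s' q x = 1 ∨ s' q x = -1 := by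
    intro q x
    change (if _ then _ else _ : ℤ) = 1 ∨ (if _ then _ else _ : ℤ) = -1
    rcases neg_one_pow_eq_or ℤ q with h | h <;> rw [h] <;> split_ifs <;> simp
  have hs2 : ∀ q x, s' q (c x) = -s' q x := by
    intro q x
    change (if κ (Orb D (c x)) < κ (Orb D (c (c x))) then (if c x ∈ A (Orb D (c x)) q then (1 : ℤ)
        else -1)
      else if κ (Orb D (c (c x))) < κ (Orb D (c x)) then (if c (c x) ∈ A (Orb D (c (c x))) q then -1
        else 1)
      else (-1) ^ q * (if ε (c x) < ε (c (c x)) then 1 else -1)) =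
      -(if κ (Orb D x) < κ (Orb D (c x)) then (if x ∈ A (Orb D x) q then 1 else -1)
        else if κ (Orb D (c x)) < κ (Orb D x) then (if c x ∈ A (Orb D (c x)) q then -1 else 1)
        else (-1) ^ q * (if ε x < ε (c x) then 1 else -1))
    rw [hc]
    rcases lt_trichotomy (κ (Orb D x)) (κ (Orb D (c x))) with h | h | h
    · rw [if_neg (not_lt.2 h.le), if_pos h, if_pos h]
      split_ifs <;> norm_num
    · rw [if_neg (not_lt.2 h.le), if_neg (not_lt.2 h.ge), if_neg (not_lt.2 h.ge),
        if_neg (not_lt.2 h.le)]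
      have h1 : ε x ≠ ε (c x) := fun h1 => hne x (hε h1).symm
      rcases lt_or_gt_of_ne h1 with h2 | h2
      · rw [if_neg (not_lt.2 h2.le), if_pos h2]
        ring
      · rw [if_pos h2, if_neg (not_lt.2 h2.le)]
        ring
    · rw [if_pos h, if_neg (not_lt.2 h.le), if_pos h]
      split_ifs <;> norm_num
  have heq : ∀ q x, κ (Orb D x) < κ (Orb D (c x)) → ∀ y ∈ Orb D x,
      s' q y = 2 * (if y ∈ A (Orb D x) q then 1 else 0) - 1 := by
    intro q x hx y hy
    have h2 := Orb_eq hy
    have h3 := Orb_eq (hO x y hy)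
    change (if κ (Orb D y) < κ (Orb D (c y)) then (if y ∈ A (Orb D y) q then (1 : ℤ) else -1)
      else if κ (Orb D (c y)) < κ (Orb D y) then (if c y ∈ A (Orb D (c y)) q then -1 else 1)
      else (-1) ^ q * (if ε y < ε (c y) then 1 else -1) : ℤ) = _
    rw [h2, h3, if_pos hx]
    split_ifs <;> norm_num
  have hlt : ∀ q x, κ (Orb D x) < κ (Orb D (c x)) →
      ∑ y ∈ Orb D x, s' q y = ∑ y ∈ Orb D x, s q y := by
    intro q x hx
    rw [hm, Finset.sum_congr rfl (heq q x hx), Finset.sum_sub_distrib, ← Finset.mul_sum,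
      Finset.sum_boole, Finset.sum_const, nsmul_eq_mul, mul_one]
    have h2 : (Orb D x).filter (fun y => y ∈ A (Orb D x) q) = A (Orb D x) q := by
      ext y
      rw [Finset.mem_filter]
      exact ⟨fun h => h.2, fun h => ⟨((hA x).1 q).1 h, h⟩⟩
    rw [h2, ((hA x).1 q).2]
  have hzero : ∀ (g : X → ℤ), (∀ x, g (c x) = -g x) → ∀ x, κ (Orb D x) = κ (Orb D (c x)) →
      ∑ y ∈ Orb D x, g y = 0 := by
    intro g hg x h
    have h1 : Orb D x = Orb D (c x) := hκ h
    have h3 : ∑ y ∈ Orb D x, g y = ∑ y ∈ Orb D x, g (c y) := by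
      have h4 : Orb D x = (Orb D x).image c := by rw [himg, ← h1]
      conv_lhs => rw [h4]
      rw [Finset.sum_image fun a _ b _ h => hcinj h]
    have h4 : ∑ y ∈ Orb D x, g (c y) = -∑ y ∈ Orb D x, g y := by
      rw [← Finset.sum_neg_distrib]
      exact Finset.sum_congr rfl fun y _ => hg y
    rw [h4] at h3
    omega
  have hneg : ∀ (g : X → ℤ), (∀ x, g (c x) = -g x) → ∀ x,
      ∑ y ∈ Orb D (c x), g y = -∑ y ∈ Orb D x, g y := by
    intro g hg x
    rw [← himg, Finset.sum_image fun a _ b _ h => hcinj h, ← Finset.sum_neg_distrib]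
    exact Finset.sum_congr rfl fun y _ => hg y
  refine ⟨s', hs1, hs2, fun q x => ?_, fun x => ?_⟩
  · rcases lt_trichotomy (κ (Orb D x)) (κ (Orb D (c x))) with h | h | h
    · exact hlt q x h
    · rw [hzero _ (hs2 q) x h, hzero _ (hodd q) x h]
    · have h1 := hlt q (c x) (by rwa [hc])
      rw [hneg _ (hs2 q), hneg _ (hodd q)] at h1
      omega
  · have hlt2 : ∀ x, κ (Orb D x) < κ (Orb D (c x)) →
        ∑ q ∈ Finset.range (2 * r), s' q x = 0 := by
      intro x hx
      rw [Finset.sum_congr rfl fun q _ => heq q x hx x (self_mem_Orb x), Finset.sum_sub_distrib,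
        ← Finset.mul_sum]
      have h1 := (hA x).2 x (self_mem_Orb x)
      have h2 : ∑ q ∈ Finset.range (2 * r), (if x ∈ A (Orb D x) q then (1 : ℤ) else 0) = r := by
        exact_mod_cast h1
      rw [h2, Finset.sum_const, Finset.card_range, nsmul_eq_mul]
      push_cast
      ring
    rcases lt_trichotomy (κ (Orb D x)) (κ (Orb D (c x))) with h | h | h
    · exact hlt2 x h
    · have h1 : ∀ q, s' q x = (-1) ^ q * (if ε x < ε (c x) then 1 else -1) := by
        intro q
        change (if κ (Orb D x) < κ (Orb D (c x)) then (if x ∈ A (Orb D x) q then (1 : ℤ) else -1)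
          else if κ (Orb D (c x)) < κ (Orb D x) then (if c x ∈ A (Orb D (c x)) q then -1 else 1)
          else (-1) ^ q * (if ε x < ε (c x) then 1 else -1) : ℤ) = _
        rw [if_neg (not_lt.2 h.ge), if_neg (not_lt.2 h.le)]
      rw [Finset.sum_congr rfl fun q _ => h1 q, ← Finset.sum_mul]
      have h2 : ∀ r : ℕ, ∑ q ∈ Finset.range (2 * r), (-1 : ℤ) ^ q = 0 := by
        intro r
        induction r with
        | zero => simp
        | succ r ih =>
          rw [mul_add, mul_one, Finset.sum_range_succ, Finset.sum_range_succ, ih, pow_succ, pow_mul]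
          norm_num
      rw [h2, zero_mul]
    · have h1 := hlt2 (c x) (by rwa [hc])
      have h2 : ∑ q ∈ Finset.range (2 * r), s' q (c x) = -∑ q ∈ Finset.range (2 * r), s' q x := by
        rw [← Finset.sum_neg_distrib]
        exact Finset.sum_congr rfl fun q _ => hs2 q x
      rw [h2] at h1
      omega

/-- The sum over the group and over the orbit. -/
theorem sum_orbit (s : X → ℤ) (x : X) :
    ((Orb D x).card : ℤ) * ∑ d : D, s (d • x) = Fintype.card D * ∑ y ∈ Orb D x, s y := by
  classical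
  have h1 : ∀ y ∈ Orb D x, ∑ d : D, s (d • y) = ∑ d : D, s (d • x) := by
    intro y hy
    obtain ⟨e, rfl⟩ := mem_Orb.1 hy
    rw [← Equiv.sum_comp (Equiv.mulRight e) fun d : D => s (d • x)]
    exact Finset.sum_congr rfl fun d _ => by rw [Equiv.coe_mulRight, mul_smul]
  have h2 : ∀ d : D, ∑ y ∈ Orb D x, s (d • y) = ∑ y ∈ Orb D x, s y := by
    intro d
    have h3 : (Orb D x).image (fun y => d • y) = Orb D x := by
      ext z
      rw [Finset.mem_image]
      constructor
      · rintro ⟨y, hy, rfl⟩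
        obtain ⟨e, rfl⟩ := mem_Orb.1 hy
        exact mem_Orb.2 ⟨d * e, mul_smul _ _ _⟩
      · intro hz
        obtain ⟨e, rfl⟩ := mem_Orb.1 hz
        exact ⟨(d⁻¹ * e) • x, mem_Orb.2 ⟨_, rfl⟩, by rw [mul_smul, smul_inv_smul]⟩
    conv_rhs => rw [← h3]
    rw [Finset.sum_image fun a _ b _ h => MulAction.injective d h]
  have h4 : ∑ y ∈ Orb D x, ∑ d : D, s (d • y) = (Orb D x).card * ∑ d : D, s (d • x) := by
    rw [Finset.sum_congr rfl h1, Finset.sum_const, nsmul_eq_mul]
  rw [← h4, Finset.sum_comm, Finset.sum_congr rfl fun d _ => h2 d, Finset.sum_const,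
    Finset.card_univ, nsmul_eq_mul]

end action

section group

variable {G : Type} [Group G] [Fintype G] (D N : Subgroup G) (c : G)

/-- Families of sign functions on a group whose mean values have the sum zero. -/
theorem lift_group (hcomm : ∀ g, c * g = g * c) (hc2 : c * c = 1) (hcN : c ∉ N) (r : ℕ)
    (s : ℕ → G → ℤ) (hs : ∀ q x, s q x = 1 ∨ s q x = -1) (hodd : ∀ q x, s q (c * x) = -s q x)
    (hN : ∀ q g, ∀ n ∈ N, s q (g * n) = s q g)
    (hsum : ∀ g, ∑ q ∈ Finset.range (2 * r), av D (s q) g = 0) :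
    ∃ s' : ℕ → G → ℤ, (∀ q x, s' q x = 1 ∨ s' q x = -1) ∧ (∀ q x, s' q (c * x) = -s' q x) ∧
      (∀ q g, ∀ n ∈ N, s' q (g * n) = s' q g) ∧ (∀ q, av D (s' q) = av D (s q)) ∧
      ∀ g, ∑ q ∈ Finset.range (2 * r), s' q g = 0 := by
  classical
  let t : ℕ → G ⧸ N → ℤ := fun q x => s q x.out
  have ht : ∀ q (g : G), t q (g : G ⧸ N) = s q g := by
    intro q g
    obtain ⟨n, hn⟩ := QuotientGroup.mk_out_eq_mul N g
    change s q (Quotient.out (g : G ⧸ N)) = s q g
    rw [hn]
    exact hN q g n n.2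
  let c' : G ⧸ N → G ⧸ N := fun x => c • x
  have hc' : ∀ g : G, c' (g : G ⧸ N) = ((c * g : G) : G ⧸ N) := fun g => rfl
  have hsm : ∀ (d : D) (g : G), d • (g : G ⧸ N) = ((d * g : G) : G ⧸ N) := fun d g => rfl
  have hav : ∀ (f : G ⧸ N → ℤ) (g : G), av D (fun g : G => f (g : G ⧸ N)) g =
      ∑ d : D, f (d • (g : G ⧸ N)) := by
    intro f g
    unfold av
    rw [← Finset.sum_filter, ← Finset.sum_coe_sort]
    refine Fintype.sum_equiv (Equiv.subtypeEquivRight fun x => ?_) _ _ fun d => rfl
    simp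
  have hts : ∀ q, (fun g : G => t q (g : G ⧸ N)) = s q := fun q => funext fun g => ht q g
  have hDpos : (0 : ℤ) < Fintype.card D := by exact_mod_cast Fintype.card_pos
  have horb : ∀ x : G ⧸ N, (0 : ℤ) < (Orb D x).card := fun x => by
    exact_mod_cast Finset.card_pos.2 ⟨x, self_mem_Orb x⟩
  obtain ⟨u, hu1, hu2, hu3, hu4⟩ := exists_signs (D := D) c' (fun x => by
      change c • c • x = x
      rw [← mul_smul, hc2, one_smul]) (fun x => by
      obtain ⟨g, rfl⟩ := QuotientGroup.mk_surjective x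
      rw [hc', ne_eq, QuotientGroup.eq]
      intro h
      have h1 : (c * g)⁻¹ * g = c⁻¹ := by
        rw [hcomm]
        group
      rw [h1] at h
      exact hcN ((Subgroup.inv_mem_iff N).1 h)) (fun d x => by
      obtain ⟨g, rfl⟩ := QuotientGroup.mk_surjective x
      rw [hc', hsm, hsm, hc', ← mul_assoc, hcomm, mul_assoc]) r t (fun q x => hs q _) (fun q x => by
      obtain ⟨g, rfl⟩ := QuotientGroup.mk_surjective x
      rw [hc', ht, ht]
      exact hodd q g) (fun x => by
      obtain ⟨g, rfl⟩ := QuotientGroup.mk_surjective x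
      have h1 : (Fintype.card D : ℤ) * ∑ q ∈ Finset.range (2 * r),
          ∑ y ∈ Orb D (g : G ⧸ N), t q y = 0 := by
        rw [Finset.mul_sum, Finset.sum_congr rfl fun q _ => (sum_orbit (t q) (g : G ⧸ N)).symm,
          ← Finset.mul_sum]
        have h2 : ∑ q ∈ Finset.range (2 * r), ∑ d : D, t q (d • (g : G ⧸ N)) = 0 := by
          rw [← hsum g]
          refine Finset.sum_congr rfl fun q _ => ?_
          rw [← hav, hts]
        rw [h2, mul_zero]
      rcases mul_eq_zero.1 h1 with h2 | h2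
      · exact absurd h2 hDpos.ne'
      · exact h2)
  refine ⟨fun q g => u q (g : G ⧸ N), fun q g => hu1 q _, fun q g => hu2 q (g : G ⧸ N),
    fun q g n hn => ?_, fun q => ?_, fun g => hu4 (g : G ⧸ N)⟩
  · change u q ((g * n : G) : G ⧸ N) = u q (g : G ⧸ N)
    congr 1
    rw [QuotientGroup.eq]
    have h1 : (g * n)⁻¹ * g = n⁻¹ := by group
    rw [h1]
    exact N.inv_mem hn
  · funext g
    rw [hav, ← hts q, hav]
    have h1 := sum_orbit (D := D) (u q) (g : G ⧸ N)
    have h2 := sum_orbit (D := D) (t q) (g : G ⧸ N)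
    rw [hu3] at h1
    exact mul_left_cancel₀ (horb (g : G ⧸ N)).ne' (h1.trans h2.symm)

end group

end

end Pool.Agent.R937.HB
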