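import Pool.Agent.R937.HB.Alg
import Pool.Agent.R937.HB.Lift
import Pool.Agent.R937.BR.Mono

/-!
# The Hodge conjecture in bounded dimension and the Tate conjecture
-/

set_option autoImplicit false
set_option linter.unusedSectionVars false
set_option linter.unusedVariables false

namespace Pool.Agent.R937.HB

open NumberField Pool.Agent.H204R3.CM Pool.Agent.W547.KB Pool.Agent.W547.LD Pool.Agent.W495.TA Module
  Pool.Agent.W495.TB Pool.Agent.W495.TC Pool.Agent.TH117.F5 Pool.Agent.TH117.BL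
  Pool.Agent.R937.CS Pool.Agent.W976.TA Pool.Agent.W417.TA Pool.Agent.R937.BR
open Pool.Agent.Y137.SF (dl dl_neg dl_zero dcnt_eq_sum RR sg isSign_sg rst rst_sg mem_rst index_hs_le)
open Pool.Agent.Y137.TV (lam lam_ne_zero)
open scoped TensorProduct

noncomputable section

/-- A bound for the indices. -/
def YY (n : ℕ) : ℕ := XX n ^ (EE n + 2)

/-- The bound for the dimension. -/
def BH (n : ℕ) : ℕ := (EE n + 2) * YY n

variable {p : ℕ} [Fact p.Prime] {ν : PadicAlgCl p ≃+* ℂ} {Ω : Type} [Field Ω] [CharZero Ω]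
  {L : Type} [Field L] [NumberField L] [IsCMField L] [IsGalois ℚ L] (j : L →+* ℂ) (jO : L →+* Ω)

/-- Balanced families of half systems. -/
theorem geoH (B : ℕ) {m : ℕ} (y : Fin m → Set (L ≃ₐ[ℚ] L)) (hy : ∀ k, IsHalf (y k))
    (hdim : ∑ q, (stab (y q)).index ≤ 2 * B) (hbal : Balanced y) :
    AlgMH B p ν j jO (Fin m) (fun k => tf p ν j (y k)) := by
  classical
  obtain ⟨Z, J, hZ, hinj, hSt, hdimZ⟩ := exists_weights (p := p) (ν := ν) j y hy
  have hbal' : Balanced fun k => St j (J k) := by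
    have h1 : (fun k => St j (J k)) = y := funext hSt
    rw [h1]
    exact hbal
  have hJ : AlgH Ω B Z (Fin m) (monoO jO J) := by
    refine monoO_mem_of_trO jO J fun α => ?_
    exact AlgH.hodge (by rw [hdimZ]; exact hdim) (trForm α J) (isHodge_trForm j J hbal' α)
      (trO jO α J) (fun v => trO_tmul jO α J v)
  have h3 := @pullS p _ ν Ω _ _ L _ _ _ _ B j jO Z hZ _ _ _ J hinj hJ
  have h4 : (fun k => tf p ν j (St j (J k))) = fun k => tf p ν j (y k) := by
    funext k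
    rw [hSt k]
  rw [h4] at h3
  exact @h3

variable {n : ℕ}

/-- Few half systems. -/
theorem few_aux (r : ℕ) (u : Fin (2 * r) → Set (L ≃ₐ[ℚ] L)) (hu : ∀ q, IsHalf (u q))
    (hidx : ∀ q, (stab (u q)).index ≤ XX n) (hr : 2 * r ≤ EE n + 2)
    (hsum : ∀ σ, ∑ q, tf p ν j (u q) σ = 0) :
    AlgMH (BH n) p ν j jO (Fin (2 * r)) (fun q => tf p ν j (u q)) := by
  classical
  rcases Nat.eq_zero_or_pos r with h0 | hpos
  · subst h0
    have : IsEmpty (Fin (2 * 0)) := ⟨fun i => i.elim0⟩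
    exact @Closed.empty (L ≃ₐ[ℚ] L) (AlgMH (BH n) p ν j jO) (closedS (BH n) j jO)
      (Fin (2 * 0)) _ _
  have h2r : 0 < 2 * r := by omega
  let s : ℕ → (L ≃ₐ[ℚ] L) → ℤ := fun q => sg (u ⟨q % (2 * r), Nat.mod_lt _ h2r⟩)
  have hsq : ∀ q : Fin (2 * r), s q = sg (u q) := by
    intro q
    change sg (u ⟨(q : ℕ) % (2 * r), _⟩) = sg (u q)
    congr 2
    exact Fin.ext (Nat.mod_eq_of_lt q.2)
  let N : Subgroup (L ≃ₐ[ℚ] L) := ⨅ q, rst (sg (u q))
  have hNle : ∀ q, N ≤ rst (sg (u q)) := fun q => iInf_le _ q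
  have hcN : cc L ∉ N := fun h =>
    c_notMem (cc L) (isSign_sg (hu ⟨0, h2r⟩)) (hNle ⟨0, h2r⟩ h)
  have hNidx : N.index ≤ YY n := by
    refine (Subgroup.index_iInf_le _).trans ?_
    have h1 : ∏ q, (rst (sg (u q))).index ≤ ∏ q : Fin (2 * r), XX n :=
      Finset.prod_le_prod' fun q _ => by
        rw [rst_sg]
        exact hidx q
    refine h1.trans ?_
    rw [Finset.prod_const, Finset.card_univ, Fintype.card_fin]
    exact Nat.pow_le_pow_right (by have := two_le_XX n; omega) hr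
  obtain ⟨s', h1, h2, h3, h4, h5⟩ := lift_group (Dec p ν j) N (cc L) (fun g => cc_comm j g) cc_cc
    hcN r s (fun q => (isSign_sg (hu _)).sign) (fun q x => by
      have := (isSign_sg (hu ⟨q % (2 * r), Nat.mod_lt _ h2r⟩)).odd x
      exact this) (fun q g m hm => (hNle _ hm) g) (fun g => by
      rw [Finset.sum_range, ← hsum g]
      refine Finset.sum_congr rfl fun q _ => ?_
      rw [hsq, tf_eq_av])
  have hsign : ∀ q, IsSign (cc L) (s' q) := fun q => ⟨h1 q, h2 q⟩
  let u' : Fin (2 * r) → Set (L ≃ₐ[ℚ] L) := fun q => {g | s' q g = 1}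
  have hu' : ∀ q, IsHalf (u' q) := fun q => (sg_of_sign (hsign q)).1
  have hsg : ∀ q, sg (u' q) = s' q := fun q => (sg_of_sign (hsign q)).2
  have htf : (fun q => tf p ν j (u' q)) = fun q => tf p ν j (u q) := by
    funext q
    rw [tf_eq_av, tf_eq_av, hsg, h4, hsq]
  have hidx' : ∀ q, (stab (u' q)).index ≤ YY n := by
    intro q
    rw [← rst_sg, hsg]
    have h6 : N ≤ rst (s' q) := by
      intro m hm
      rw [mem_rst]
      exact fun g => h3 q g m hm
    exact (Nat.le_of_dvd (Nat.pos_of_ne_zero Subgroup.index_ne_zero_of_finite)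
      (Subgroup.index_dvd_of_le h6)).trans hNidx
  have hbal : Balanced u' := by
    intro σ
    have h6 := h5 σ
    rw [Finset.sum_range] at h6
    rw [← h6]
    refine Finset.sum_congr rfl fun q _ => ?_
    rw [← hsg q]
    unfold Pool.Agent.Y137.SF.sg
    congr
  have hdim : ∑ q, (stab (u' q)).index ≤ 2 * BH n := by
    refine (Finset.sum_le_card_nsmul _ _ _ fun q _ => hidx' q).trans ?_
    rw [smul_eq_mul, Finset.card_univ, Fintype.card_fin]
    calc 2 * r * YY n ≤ (EE n + 2) * YY n := Nat.mul_le_mul_right _ hr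
      _ = BH n := rfl
      _ ≤ 2 * BH n := by omega
  have h7 : AlgMH (BH n) p ν j jO (Fin (2 * r)) (fun q => tf p ν j (u' q)) :=
    @geoH p _ ν Ω _ _ L _ _ _ _ j jO (BH n) (2 * r) u' hu' hdim hbal
  rw [htf] at h7
  exact @h7

/-- Few half systems. -/
theorem few_mem {Q : Type} [Fintype Q] (u : Q → Set (L ≃ₐ[ℚ] L)) (hu : ∀ q, IsHalf (u q))
    (hidx : ∀ q, (stab (u q)).index ≤ XX n) (hQ : Fintype.card Q ≤ EE n + 2)
    (hsum : ∀ σ, ∑ q, tf p ν j (u q) σ = 0) (heven : Even (Fintype.card Q)) :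
    AlgMH (BH n) p ν j jO Q (fun q => tf p ν j (u q)) := by
  classical
  obtain ⟨r, hr⟩ := heven
  have hr2 : Fintype.card Q = 2 * r := by omega
  let e : Fin (2 * r) ≃ Q := (Fintype.equivFinOfCardEq hr2).symm
  have h1 : AlgMH (BH n) p ν j jO (Fin (2 * r)) (fun q => tf p ν j (u (e q))) :=
    @few_aux p _ ν Ω _ _ L _ _ _ _ j jO n r (fun q => u (e q)) (fun q => hu _) (fun q => hidx _)
      (by omega) (fun σ => by
        rw [← hsum σ]
        exact Equiv.sum_comp e fun q => tf p ν j (u q) σ)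
  exact @Closed.reindex (L ≃ₐ[ℚ] L) (AlgMH (BH n) p ν j jO) (closedS (BH n) j jO) (Fin (2 * r)) Q
    _ e (fun q => tf p ν j (u (e q))) (fun q => tf p ν j (u q)) (fun _ => rfl) @h1

variable {j} {S : Option (Lb p ν j n) → Set (L ≃ₐ[ℚ] L)}

/-- A good family with one prescribed member. -/
theorem good_mem (hn : 0 < n) (hS : IsTab j n S)
    (U : Set (L ≃ₐ[ℚ] L)) (hU : IsHalf U) (hidx : (stab U).index ≤ n) :
    ∃ (β : Type) (b : β → (L ≃ₐ[ℚ] L) → ℤ),
      IsGood (L ≃ₐ[ℚ] L) (AlgMH (BH n) p ν j jO) (RR p ν j) β b ∧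
      dcnt b = dl (tf p ν j U) -
        DD (fun l => tf p ν j (S (some l))) (fun l => (ee (MM n) (ff p ν j U) l : ℤ)) := by
  classical
  have hatom : IsAtom (Dec p ν j) (cc L) n (ff p ν j U) :=
    isAtom_av (fun g => cc_comm j g) hn (isSign_sg hU) (by rw [rst_sg]; exact hidx)
  let e : Lb p ν j n → ℕ := ee (MM n) (ff p ν j U)
  let r : ℕ := ((∑ l, e l) + 1) % 2
  let u : Unit ⊕ Fam e r → Set (L ≃ₐ[ℚ] L) := Sum.elim (fun _ => U) fun k => S (fw e r (clj j n) k)
  have hcard : Fintype.card (Unit ⊕ Fam e r) = 1 + ((∑ l, e l) + r) := by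
    rw [Fintype.card_sum, card_Fam, Fintype.card_unit]
  have hle : ∑ l, e l ≤ EE n := sum_ee_le hatom
  have hrr : r ≤ 1 := by
    have : r < 2 := Nat.mod_lt _ (by norm_num)
    omega
  have heven : Even (Fintype.card (Unit ⊕ Fam e r)) := by
    rw [hcard, Nat.even_iff]
    change (1 + ((∑ l, e l) + ((∑ l, e l) + 1) % 2)) % 2 = 0
    omega
  have hu : ∀ k, IsHalf (u k) := by
    rintro (k | k)
    · exact hU
    · exact hS.half _
  have hui : ∀ k, (stab (u k)).index ≤ XX n := by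
    rintro (k | k)
    · exact hidx.trans (le_XX n)
    · exact hS.idx _
  have hsum : ∀ σ, ∑ k, tf p ν j (u k) σ = 0 := by
    intro σ
    have h0 : ((∑ k, tf p ν j (u k) σ : ℤ) : ℚ) = 0 := by
      rw [Fintype.sum_sum_type, Int.cast_add]
      have h1 : ((∑ k : Fam e r, tf p ν j (u (Sum.inr k)) σ : ℤ) : ℚ) =
          -((nD (Dec p ν j) : ℚ) * ff p ν j U σ) := hS.sum_fw hatom r σ
      have h2 : ∑ k : Unit, tf p ν j (u (Sum.inl k)) σ = tf p ν j U σ := by
        rw [Fintype.sum_unique]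
        rfl
      rw [h1, h2, ff_eq]
      ring
    exact_mod_cast h0
  refine ⟨Unit ⊕ Fam e r, fun k => tf p ν j (u k), ⟨inferInstance, ?_, ?_, ?_, ?_⟩, ?_⟩
  · rw [Nat.card_eq_fintype_card]
    exact heven
  · intro k
    exact ⟨u k, hu k, rfl⟩
  · have h1 : AlgMH (BH n) p ν j jO (Unit ⊕ Fam e r) (fun k => tf p ν j (u k)) :=
      @few_mem p _ ν Ω _ _ L _ _ _ _ j jO n (Unit ⊕ Fam e r) _ u hu hui (by rw [hcard]; omega) hsum
        heven
    exact @h1
  · have h1 : AlgMH (BH n) p ν j jO (Unit ⊕ Fam e r) (fun k => tf p ν j (u k)ᶜ) :=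
      @few_mem p _ ν Ω _ _ L _ _ _ _ j jO n (Unit ⊕ Fam e r) _ (fun k => (u k)ᶜ)
        (fun k => (hu k).compl) (fun k => by rw [index_compl]; exact hui k)
        (by rw [hcard]; omega) (fun σ => by
        have h2 : ∑ k, tf p ν j (u k)ᶜ σ = -∑ k, tf p ν j (u k) σ := by
          rw [← Finset.sum_neg_distrib]
          exact Finset.sum_congr rfl fun k _ => Pool.Agent.W417.TA.tf_compl j (u k) σ
        rw [h2, hsum σ, neg_zero]) heven
    have h2 : (fun k => -tf p ν j (u k)) = fun k => tf p ν j (u k)ᶜ := by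
      funext k σ
      exact (Pool.Agent.W417.TA.tf_compl j (u k) σ).symm
    rw [h2]
    exact @h1
  · rw [dcnt_eq_sum, Fintype.sum_sum_type, sub_eq_add_neg]
    congr 1
    · rw [Fintype.sum_unique]
      rfl
    · have h1 := dcnt_fw (fun l => tf p ν j (S (some l))) e r (clj j n) (clj_inv j n) hS.conj
      rw [dcnt_eq_sum] at h1
      rw [← h1]
      refine Finset.sum_congr rfl fun k _ => ?_
      congr 1
      exact hS.ext _

/-- **Monomials.** -/
theorem mono_mem (hn : 0 < n) (hS : IsTab j n S) {Y : RedAV p ν} (hY : Big Y.X j)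
    (hdim : ∀ i, finrank ℚ (Y.X.factor i).E ≤ n) {κ : Type} [Fintype κ] [DecidableEq κ]
    (I : κ → Wt Y.X L) (heven : Even (Fintype.card κ))
    (hrel : ∀ σ, ∑ k, tf p ν j (St j (I k)) σ = 0) :
    AlgH Ω (BH n) Y κ (monoO jO I) := by
  classical
  have hhalf : ∀ w : Wt Y.X L, IsHalf (St j w) := fun w => isHalf_St (X := Y.X) j w
  have hYidx : ∀ k, (stab (St j (I k))).index ≤ n := fun k =>
    (index_hs_le j (Y.X.factor (I k).1) (hY (I k).1) (I k).2).trans (hdim (I k).1)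
  choose β bk hgood hdcnt using fun k => good_mem jO hn hS (St j (I k)) (hhalf (I k)) (hYidx k)
  have hatomY : ∀ k, IsAtom (Dec p ν j) (cc L) n (ff p ν j (St j (I k))) := fun k =>
    isAtom_av (fun g => cc_comm j g) hn (isSign_sg (hhalf (I k))) (by rw [rst_sg]; exact hYidx k)
  have hD : dcnt (fun k => tf p ν j (St j (I k))) = ∑ k, dcnt (bk k) := by
    have hnD : ((nD (Dec p ν j) : ℤ) : ℚ) ≠ 0 := by
      exact_mod_cast (nD_pos (Dec p ν j)).ne'
    have h1 := sum_DD (D := Dec p ν j) (n := n) (fun g => cc_comm j g) cc_cc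
      (fun k => ff p ν j (St j (I k))) hatomY (by
        funext σ
        rw [Finset.sum_apply]
        have h2 : (nD (Dec p ν j) : ℚ) * ∑ k, ff p ν j (St j (I k)) σ = 0 := by
          rw [Finset.mul_sum, Finset.sum_congr rfl fun k _ => ff_eq (St j (I k)) σ]
          exact_mod_cast hrel σ
        rcases mul_eq_zero.1 h2 with h3 | h3
        · exact absurd h3 hnD
        · exact h3) (fun l => tf p ν j (S (some l))) hS.conj
    rw [dcnt_eq_sum, Finset.sum_congr rfl fun k _ => hdcnt k, Finset.sum_sub_distrib]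
    have h2 : ∑ k, DD (fun l => tf p ν j (S (some l)))
        (fun l => (ee (MM n) (ff p ν j (St j (I k))) l : ℤ)) = 0 := h1
    rw [h2, sub_zero]
  have hgen2 : GenD (AlgMH (BH n) p ν j jO) (RR p ν j) (dcnt fun k => tf p ν j (St j (I k))) := by
    rw [hD]
    exact genD_sum _ _ fun k _ => GenD.of_good (hgood k)
  have hcan : ∀ g ∈ RR p ν j, PairCancel (L ≃ₐ[ℚ] L) (AlgMH (BH n) p ν j jO) g := by
    rintro g ⟨U, hU, rfl⟩
    exact cancelS (BH n) j jO U hU
  have hSm : AlgMH (BH n) p ν j jO κ (fun k => tf p ν j (St j (I k))) :=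
    @of_genD _ _ (RR p ν j) (closedS (BH n) j jO) hcan κ _
      (fun k => tf p ν j (St j (I k))) (fun k => ⟨_, hhalf (I k), rfl⟩)
      (by rw [Nat.card_eq_fintype_card]; exact heven) hgen2
  exact @hSm _ _ Y hY I fun k => rfl

/-- **The theorem.** -/
theorem main {n : ℕ} (hn : 0 < n) {p : ℕ} [Fact p.Prime] {ν : PadicAlgCl p ≃+* ℂ} {Ω : Type}
    [Field Ω] [IsAlgClosed Ω] [CharZero Ω] (Y : RedAV p ν)
    (hY : ∀ i, finrank ℚ (Y.X.factor i).E ≤ n) (s m : ℕ) (hs : 0 < s)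
    (f : (TM Ω Y) [⋀^Fin (2 * m)]→ₗ[Ω] Ω) (hf : IsTateClass Ω Y s m f) :
    AlgH Ω (BH n) Y (Fin (2 * m)) f := by
  classical
  obtain ⟨L, _, _, _, _, j, hYj, hkp, -, H0, hH0, hDH⟩ := exists_setup (p := p) (ν := ν) n Y
    (fun q : Empty => q.elim)
  let jO : L →+* Ω := ((IsAlgClosed.lift : L →ₐ[ℚ] Ω) : L →+* Ω)
  obtain ⟨S, hS⟩ := exists_tab (p := p) (ν := ν) j n hkp H0 hH0 hDH
  obtain ⟨e, h1, h0⟩ := Pool.Agent.W67.TA.basis p ν Ω L j jO Y hYj
  have : Module.Finite ℚ Y.X.H1 := Module.Finite.pi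
  have : Finite (Wt Y.X L) := Module.Finite.finite_basis e
  refine expandS jO Y e h1 h0 (Fin (2 * m)) f fun I hI => ?_
  have hrel : (∏ k, lam jO (I k)) ^ s * ∏ i ∈ (∅ : Finset Empty), jO ((fun q : Empty => q.elim) i) ^ s =
      (p : Ω) ^ (Y.a * s * m) := by
    rw [Finset.prod_empty, mul_one]
    have h2 := hf fun k => e (I k)
    have h3 : (fun k => (F Ω Y ^ s) (e (I k))) = fun k => (lam jO (I k)) ^ s • e (I k) :=
      funext fun k => F_pow_e jO e h1 h0 (I k) s
    rw [h3, AlternatingMap.map_smul_univ, smul_eq_mul, Finset.prod_pow] at h2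
    have h4 := mul_right_cancel₀ hI h2
    rw [h4, ← pow_mul]
    congr 1
    ring
  obtain ⟨hcard, hsum⟩ := rel_of_tate (K := Empty) j jO hYj I (T := ∅) Y.pos hs rfl
    (b := fun _ => 0) (f := fun _ _ => 0) (y := fun q : Empty => q.elim) (fun i => i.elim) hrel
  refine mono_mem jO hn hS hYj hY I ⟨m, ?_⟩ fun σ => ?_
  · rw [Fintype.card_fin]
    ring
  · have h2 := hsum σ
    rw [Finset.sum_empty, mul_zero, add_zero] at h2
    exact_mod_cast h2

end

end Pool.Agent.R937.HB
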